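import Pool.Agent.H786Z.TH.Chain

/-!
A spanning face from connectivity of the restrictions to complements of flats
(the Aharoni-Berger theorem, in mod-2 homological form), by a Lefschetz trace argument.
-/

open Finset

namespace Pool.Agent.H786Z.TH

variable {α : Type*} [Fintype α] [DecidableEq α]

theorem spanning_face (C : Finset α → Prop) (hdown : ∀ σ τ, τ ⊆ σ → C σ → C τ) (h0 : C ∅)
    (Fl : Finset α → Prop) (cl : Finset α → Finset α) (ρ : Finset α → ℕ)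
    (hcl : ∀ σ, Fl (cl σ)) (hsub : ∀ σ, σ ⊆ cl σ)
    (hmin : ∀ σ Φ, Fl Φ → σ ⊆ Φ → cl σ ⊆ Φ)
    (hρ : ∀ Φ Ψ, Fl Φ → Fl Ψ → Φ ⊂ Ψ → ρ Ψ < ρ Φ)
    (hη : ∀ Φ, Fl Φ → Ac (fun σ => C σ ∧ Disjoint σ Φ) (ρ Φ)) :
    ∃ σ, C σ ∧ ρ (cl σ) = 0 := by
  classical
  by_contra hcon
  push Not at hcon
  let N : Finset (Finset α) → Prop := fun γ =>
    (∀ Φ ∈ γ, Fl Φ ∧ ρ Φ ≠ 0) ∧ ∀ Φ ∈ γ, ∀ Ψ ∈ γ, Φ ⊆ Ψ ∨ Ψ ⊆ Φ
  have hN : ∀ γ δ, δ ⊆ γ → N γ → N δ := fun γ δ h hγ =>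
    ⟨fun Φ hΦ => hγ.1 Φ (h hΦ), fun Φ hΦ Ψ hΨ => hγ.2 Φ (h hΦ) Ψ (h hΨ)⟩
  have hins : ∀ γ Φ, N γ → Fl Φ → ρ Φ ≠ 0 → (∀ Ψ ∈ γ, Φ ⊆ Ψ ∨ Ψ ⊆ Φ) → N (insert Φ γ) := by
    intro γ Φ hγ h1 h2 h3
    refine ⟨?_, ?_⟩
    · intro Ψ hΨ
      rcases Finset.mem_insert.1 hΨ with rfl | hΨ
      · exact ⟨h1, h2⟩
      · exact hγ.1 Ψ hΨ
    · intro Ψ hΨ Θ hΘ
      rcases Finset.mem_insert.1 hΨ with h4 | h4 <;> rcases Finset.mem_insert.1 hΘ with h5 | h5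
      · rw [h4, h5]; exact Or.inl le_rfl
      · rw [h4]; exact h3 _ h5
      · rw [h5]; exact (h3 _ h4).symm
      · exact hγ.2 _ h4 _ h5
  have hp : ∀ γ, N γ → N (insert (cl ∅) γ) := fun γ hγ =>
    hins γ _ hγ (hcl _) (hcon _ h0) fun Ψ hΨ =>
      Or.inl (hmin _ _ (hγ.1 Ψ hΨ).1 (Finset.empty_subset _))
  -- the least member of a chain
  have hleast : ∀ γ, N γ → γ.Nonempty → ∃ Φ ∈ γ, (∀ Ψ ∈ γ, Φ ⊆ Ψ) ∧ γ.card ≤ ρ Φ := by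
    intro γ hγ hne
    obtain ⟨Φ, hΦ, hm⟩ := Finset.exists_min_image γ Finset.card hne
    have hle : ∀ Ψ ∈ γ, Φ ⊆ Ψ := by
      intro Ψ hΨ
      rcases hγ.2 Φ hΦ Ψ hΨ with h | h
      · exact h
      · rw [Finset.eq_of_subset_of_card_le h (hm Ψ hΨ)]
    refine ⟨Φ, hΦ, hle, ?_⟩
    have hmaps : ∀ Ψ ∈ γ, ρ Ψ ∈ Finset.Icc 1 (ρ Φ) := by
      intro Ψ hΨ
      refine Finset.mem_Icc.2 ⟨Nat.one_le_iff_ne_zero.2 (hγ.1 Ψ hΨ).2, ?_⟩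
      rcases (hle Ψ hΨ).eq_or_ssubset with h | h
      · rw [h]
      · exact (hρ _ _ (hγ.1 _ hΦ).1 (hγ.1 _ hΨ).1 h).le
    have hinj : Set.InjOn ρ γ := by
      intro Ψ hΨ Θ hΘ h
      by_contra hne
      rcases hγ.2 Ψ hΨ Θ hΘ with h' | h'
      · have := hρ _ _ (hγ.1 _ hΨ).1 (hγ.1 _ hΘ).1 (Finset.ssubset_iff_subset_ne.2 ⟨h', hne⟩)
        omega
      · have := hρ _ _ (hγ.1 _ hΘ).1 (hγ.1 _ hΨ).1
          (Finset.ssubset_iff_subset_ne.2 ⟨h', fun h'' => hne h''.symm⟩)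
        omega
    have := Finset.card_le_card_of_injOn ρ (fun Ψ hΨ => hmaps Ψ hΨ) hinj
    simpa using this
  obtain ⟨φ, hφ0, hφ⟩ := carrier N hN (fun γ σ => C σ ∧ ∀ x ∈ σ, ∃ Φ ∈ γ, x ∉ Φ)
    (fun γ δ _ h σ hσ => ⟨hσ.1, fun x hx => by
      obtain ⟨Φ, h1, h2⟩ := hσ.2 x hx
      exact ⟨Φ, h h1, h2⟩⟩) ⟨h0, by simp⟩ (by
      intro γ hγ hne
      obtain ⟨Φ, hΦ, hle, hc⟩ := hleast γ hγ hne
      refine ac_congr ?_ ((hη Φ (hγ.1 Φ hΦ).1).mono hc)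
      intro σ
      refine and_congr_right fun _ => ?_
      rw [Finset.disjoint_left]
      constructor
      · intro h x hx; exact ⟨Φ, hΦ, h hx⟩
      · intro h x hx hxΦ
        obtain ⟨Ψ, h1, h2⟩ := h x hx
        exact h2 (hle Ψ h1 hxΦ))
  obtain ⟨ψ, hψ0, hψ⟩ := carrier C hdown
    (fun σ γ => N γ ∧ ∀ Φ ∈ γ, (∃ x ∈ σ, x ∈ Φ) ∧ Φ ⊆ cl σ)
    (fun σ τ _ h γ hγ => ⟨hγ.1, fun Φ hΦ => by
      obtain ⟨⟨x, h1, h2⟩, h3⟩ := hγ.2 Φ hΦ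
      exact ⟨⟨x, h h1, h2⟩, h3.trans (hmin _ _ (hcl _) (h.trans (hsub _)))⟩⟩)
    ⟨⟨by simp, by simp⟩, by simp⟩ (by
      intro σ hσ hne
      refine ac_cone _ (cl σ) ?_ _
      intro γ hγ
      refine ⟨hins γ _ hγ.1 (hcl _) (hcon _ hσ) fun Ψ hΨ => Or.inr (hγ.2 Ψ hΨ).2, ?_⟩
      intro Φ hΦ
      rcases Finset.mem_insert.1 hΦ with rfl | hΦ
      · obtain ⟨x, hx⟩ := hne
        exact ⟨⟨x, hx, hsub _ hx⟩, le_rfl⟩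
      · exact hγ.2 Φ hΦ)
  let f : Finset (Finset α) → Finset (Finset α) → F2 := fun γ δ => ∑ σ, φ γ σ * ψ σ δ
  have htr := trace_zero N hN (cl ∅) hp f (by
      intro γ hγ δ hδ
      obtain ⟨σ, _, hσ⟩ := Finset.exists_ne_zero_of_sum_ne_zero hδ
      have h1 := ((hφ γ hγ).1 σ (left_ne_zero_of_mul hσ)).1.1
      exact ((hψ σ h1).1 δ (right_ne_zero_of_mul hσ)).1.1) (by
      intro γ hγ
      funext δ
      have h1 : bd (f γ) δ = ∑ σ, φ γ σ * bd (ψ σ) δ := by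
        simp only [bd, f, Finset.mul_sum]
        rw [Finset.sum_comm]
        refine Finset.sum_congr rfl fun a _ => ?_
        split_ifs <;> simp
      have h2 : (∑ σ, φ γ σ * bd (ψ σ) δ) = ∑ σ, φ γ σ * ∑ a ∈ σ, ψ (σ.erase a) δ := by
        refine Finset.sum_congr rfl fun σ _ => ?_
        by_cases h : φ γ σ = 0
        · simp [h]
        · rw [(hψ σ ((hφ γ hγ).1 σ h).1.1).2, Finset.sum_apply]
      rw [h1, h2, ← sum_bd (φ γ) (fun τ => ψ τ δ), (hφ γ hγ).2]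
      simp only [Finset.sum_apply, Finset.sum_mul, f]
      rw [Finset.sum_comm])
  rw [Finset.sum_eq_single ∅] at htr
  · have hN0 : N ∅ := ⟨by simp, by simp⟩
    rw [if_pos hN0] at htr
    simp only [f, hφ0] at htr
    rw [Finset.sum_eq_single ∅] at htr
    · simp [hψ0] at htr
    · intro σ _ hσ; simp [hσ]
    · simp
  · intro γ _ hne
    split_ifs with hγ
    · refine Finset.sum_eq_zero fun σ _ => ?_
      by_contra hσ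
      obtain ⟨h1, h2⟩ := ((hφ γ hγ).1 σ (left_ne_zero_of_mul hσ)).1
      obtain ⟨_, h3⟩ := ((hψ σ h1).1 γ (right_ne_zero_of_mul hσ)).1
      obtain ⟨Φ, hΦ, hle, _⟩ := hleast γ hγ (Finset.nonempty_iff_ne_empty.2 hne)
      obtain ⟨⟨x, hx, hxΦ⟩, _⟩ := h3 Φ hΦ
      obtain ⟨Ψ, h4, h5⟩ := h2 x hx
      exact h5 (hle Ψ h4 hxΦ)
    · rfl
  · simp

end Pool.Agent.H786Z.TH
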