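import Mathlib

/-!
Mod-2 simplicial chains on the subsets of a finite type, acyclicity up to a given size,
the link/deletion inequality, cones, acyclic carriers and a trace lemma.
-/

open Finset

namespace Pool.Agent.H786Z.TH

abbrev F2 := ZMod 2

lemma add_self2 (x : F2) : x + x = 0 := by
  have h : (2 : F2) = 0 := rfl
  rw [← two_mul, h, zero_mul]

lemma eq_of_add_eq_zero2 {x y : F2} (h : x + y = 0) : x = y := by
  have := add_self2 y
  linear_combination h - this

variable {α : Type*} [Fintype α] [DecidableEq α]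

/-- boundary of a chain -/
def bd (z : Finset α → F2) : Finset α → F2 :=
  fun σ => ∑ a, if a ∈ σ then 0 else z (insert a σ)

/-- cone over a chain -/
def cone (p : α) (z : Finset α → F2) : Finset α → F2 :=
  fun σ => if p ∈ σ then z (σ.erase p) else 0

lemma sum_sym {ι : Type*} [Fintype ι] [DecidableEq ι] (g : ι → ι → F2)
    (hs : ∀ a b, g a b = g b a) (hd : ∀ a, g a a = 0) : ∑ a, ∑ b, g a b = 0 := by
  rw [← Finset.sum_product']
  refine Finset.sum_involution (fun x _ => x.swap) ?_ ?_ ?_ ?_
  · intro x _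
    simp only [Prod.fst_swap, Prod.snd_swap]
    rw [hs x.2 x.1]; exact add_self2 _
  · intro x _ hx h
    apply hx
    have : x.2 = x.1 := congrArg Prod.fst h
    rw [this]; exact hd _
  · intro x _; simp
  · intro x _; simp

lemma bd_add (z w : Finset α → F2) : bd (z + w) = bd z + bd w := by
  funext σ
  simp only [bd, Pi.add_apply, ← Finset.sum_add_distrib]
  refine Finset.sum_congr rfl fun a _ => ?_
  split_ifs <;> simp

lemma bd_zero : bd (0 : Finset α → F2) = 0 := by
  funext σ; simp [bd]

lemma bd_sum {ι : Type*} (s : Finset ι) (g : ι → Finset α → F2) :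
    bd (∑ i ∈ s, g i) = ∑ i ∈ s, bd (g i) := by
  classical
  induction s using Finset.induction_on with
  | empty => simp [bd_zero]
  | insert i s hi ih => rw [Finset.sum_insert hi, Finset.sum_insert hi, bd_add, ih]

lemma bd_bd (z : Finset α → F2) : bd (bd z) = 0 := by
  funext σ
  have : bd (bd z) σ = ∑ a, ∑ b, if a ∈ σ ∨ b ∈ σ ∨ a = b then 0 else
      z (insert a (insert b σ)) := by
    simp only [bd]
    refine Finset.sum_congr rfl fun a _ => ?_
    by_cases ha : a ∈ σ
    · simp [ha]
    · simp only [ha, if_false, false_or]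
      refine Finset.sum_congr rfl fun b _ => ?_
      by_cases hb : b ∈ σ
      · simp [hb]
      · by_cases hab : a = b
        · simp [hab]
        · have : b ∉ insert a σ := by
            simp only [Finset.mem_insert, not_or]; exact ⟨fun h => hab h.symm, hb⟩
          simp only [this, hb, hab, if_false, or_self]
          rw [Finset.insert_comm]
  rw [this]
  apply sum_sym
  · intro a b
    rw [Finset.insert_comm]
    congr 1
    apply propext
    constructor <;> rintro (h | h | h) <;> simp [h]
  · intro a; simp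

lemma bd_cone (p : α) (z : Finset α → F2) : bd (cone p z) = z + cone p (bd z) := by
  funext σ
  simp only [bd, cone, Pi.add_apply]
  by_cases hp : p ∈ σ
  · simp only [hp, if_true]
    rw [← Finset.add_sum_erase Finset.univ _ (Finset.mem_univ p),
      ← Finset.add_sum_erase Finset.univ (fun a => if a ∈ σ.erase p then (0 : F2) else
        z (insert a (σ.erase p))) (Finset.mem_univ p)]
    simp only [hp, if_true, Finset.notMem_erase, if_false, Finset.insert_erase hp, zero_add]
    rw [← add_assoc, add_self2, zero_add]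
    refine Finset.sum_congr rfl fun a ha => ?_
    have hap : a ≠ p := (Finset.mem_erase.1 ha).1
    by_cases h : a ∈ σ
    · simp [h, hap]
    · simp only [h, if_false, Finset.mem_insert, hp, or_true, if_true, Finset.mem_erase, and_false]
      rw [Finset.erase_insert_of_ne hap]
  · simp only [hp, if_false, add_zero]
    rw [Finset.sum_eq_single p]
    · simp [hp, Finset.erase_insert hp]
    · intro b _ hb
      have : p ∉ insert b σ := by
        simp only [Finset.mem_insert, not_or]; exact ⟨fun h => hb h.symm, hp⟩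
      simp [this]
    · simp

/-- reduced mod-2 homology vanishes for cycles made of faces with fewer than `t` elements -/
def Ac (C : Finset α → Prop) (t : ℕ) : Prop :=
  ∀ s ≤ t, ∀ z : Finset α → F2, (∀ σ, z σ ≠ 0 → C σ ∧ σ.card < s) → bd z = 0 →
    ∃ w : Finset α → F2, (∀ σ, w σ ≠ 0 → C σ ∧ σ.card ≤ s) ∧ bd w = z

lemma Ac.mono {C : Finset α → Prop} {t t' : ℕ} (h : Ac C t) (ht : t' ≤ t) : Ac C t' :=
  fun s hs => h s (hs.trans ht)

lemma ac_zero (C : Finset α → Prop) : Ac C 0 := by
  intro s hs z hz _
  refine ⟨0, by simp, ?_⟩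
  rw [bd_zero]
  funext σ
  by_contra h
  have := (hz σ (fun h' => h (by simp [h']))).2
  omega

lemma ac_void (C : Finset α → Prop) (hC : ∀ σ, ¬ C σ) (t : ℕ) : Ac C t := by
  intro s _ z hz _
  refine ⟨0, by simp, ?_⟩
  rw [bd_zero]
  funext σ
  by_contra h
  exact hC σ (hz σ (fun h' => h (by simp [h']))).1

lemma ac_congr {C C' : Finset α → Prop} (h : ∀ σ, C σ ↔ C' σ) {t : ℕ} (hC : Ac C t) :
    Ac C' t := by
  have : C = C' := funext fun σ => propext (h σ)
  rwa [← this]

lemma ac_cone (C : Finset α → Prop) (p : α) (hp : ∀ σ, C σ → C (insert p σ)) (t : ℕ) :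
    Ac C t := by
  intro s _ z hz hc
  refine ⟨cone p z, ?_, ?_⟩
  · intro σ hσ
    unfold cone at hσ
    by_cases h : p ∈ σ
    · simp only [h, if_true] at hσ
      obtain ⟨h1, h2⟩ := hz _ hσ
      refine ⟨?_, ?_⟩
      · have := hp _ h1
        rwa [Finset.insert_erase h] at this
      · rw [Finset.card_erase_of_mem h] at h2
        omega
    · simp [h] at hσ
  · rw [bd_cone, hc]
    funext σ; simp [cone]

/-- link/deletion inequality -/
lemma ac_link (C : Finset α → Prop) (hdown : ∀ σ τ, τ ⊆ σ → C σ → C τ) (a : α) (t : ℕ)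
    (hdel : Ac (fun σ => C σ ∧ a ∉ σ) (t + 1))
    (hlk : Ac (fun σ => C (insert a σ) ∧ a ∉ σ) t) : Ac C (t + 1) := by
  intro s hs z hz hc
  rcases s with _ | s
  · exact ac_zero C 0 le_rfl z hz hc
  set z1 : Finset α → F2 := fun σ => if a ∈ σ then 0 else z (insert a σ) with hz1
  have h1 : ∀ σ, z1 σ ≠ 0 → (C (insert a σ) ∧ a ∉ σ) ∧ σ.card < s := by
    intro σ hσ
    by_cases h : a ∈ σ
    · simp [hz1, h] at hσ
    · simp only [hz1, h, if_false] at hσ
      obtain ⟨h2, h3⟩ := hz _ hσ
      rw [Finset.card_insert_of_notMem h] at h3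
      exact ⟨⟨h2, h⟩, by omega⟩
  have h2 : bd z1 = 0 := by
    funext σ
    by_cases h : a ∈ σ
    · simp [bd, hz1, h]
    · have := congrFun hc (insert a σ)
      simp only [bd, Pi.zero_apply] at this ⊢
      refine Eq.trans ?_ this
      refine Finset.sum_congr rfl fun b _ => ?_
      by_cases hb : b ∈ σ
      · simp [hb]
      · by_cases hab : b = a
        · simp [hab, hz1]
        · have h4 : a ∉ insert b σ := by
            simp only [Finset.mem_insert, not_or]; exact ⟨fun h => hab h.symm, h⟩
          have h5 : b ∉ insert a σ := by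
            simp only [Finset.mem_insert, not_or]; exact ⟨hab, hb⟩
          simp only [hz1, hb, h4, h5, if_false]
          rw [Finset.insert_comm]
  obtain ⟨w1, hw1, hb1⟩ := hlk s (by omega) z1 h1 h2
  have h3 : ∀ σ, (z + bd (cone a w1)) σ ≠ 0 → (C σ ∧ a ∉ σ) ∧ σ.card < s + 1 := by
    intro σ hσ
    rw [bd_cone, hb1] at hσ
    simp only [Pi.add_apply, cone] at hσ
    by_cases h : a ∈ σ
    · exfalso
      have hw : w1 σ = 0 := by
        by_contra h'
        exact (hw1 σ h').1.2 h
      simp only [h, if_true, hz1, Finset.notMem_erase, if_false, Finset.insert_erase h, hw,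
        zero_add] at hσ
      exact hσ (add_self2 _)
    · simp only [h, if_false, add_zero] at hσ
      by_cases hz0 : z σ = 0
      · rw [hz0, zero_add] at hσ
        obtain ⟨⟨h4, _⟩, h5⟩ := hw1 σ hσ
        exact ⟨⟨hdown _ _ (Finset.subset_insert _ _) h4, h⟩, by omega⟩
      · obtain ⟨h4, h5⟩ := hz σ hz0
        exact ⟨⟨h4, h⟩, h5⟩
  obtain ⟨u, hu, hbu⟩ := hdel (s + 1) hs _ h3 (by rw [bd_add, hc, bd_bd, add_zero])
  refine ⟨u + cone a w1, ?_, ?_⟩
  · intro σ hσ
    simp only [Pi.add_apply] at hσ
    by_cases hu0 : u σ = 0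
    · rw [hu0, zero_add] at hσ
      unfold cone at hσ
      by_cases h : a ∈ σ
      · simp only [h, if_true] at hσ
        obtain ⟨⟨h4, _⟩, h5⟩ := hw1 _ hσ
        rw [Finset.insert_erase h] at h4
        rw [Finset.card_erase_of_mem h] at h5
        exact ⟨h4, by omega⟩
      · simp [h] at hσ
    · exact ⟨(hu σ hu0).1.1, (hu σ hu0).2⟩
  · rw [bd_add, hbu]
    funext σ
    simp only [Pi.add_apply]
    rw [add_assoc, add_self2, add_zero]

lemma sum_mem_eq (a : α) (G : Finset α → F2) :
    (∑ σ : Finset α, if a ∈ σ then G (σ.erase a) else 0) =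
      ∑ τ : Finset α, if a ∈ τ then 0 else G τ := by
  rw [← Finset.sum_filter]
  have : (∑ τ : Finset α, if a ∈ τ then 0 else G τ) =
      ∑ τ ∈ Finset.univ.filter (fun τ : Finset α => a ∉ τ), G τ := by
    rw [Finset.sum_filter]
    refine Finset.sum_congr rfl fun τ _ => ?_
    by_cases h : a ∈ τ <;> simp [h]
  rw [this]
  refine Finset.sum_nbij' (fun σ => σ.erase a) (fun τ => insert a τ) ?_ ?_ ?_ ?_ ?_
  · intro σ _; simp
  · intro τ _; simp
  · intro σ hσ
    exact Finset.insert_erase (by simpa using hσ)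
  · intro τ hτ
    exact Finset.erase_insert (by simpa using hτ)
  · intro σ _; rfl

lemma sum_reindex (G : Finset α → α → F2) :
    (∑ σ : Finset α, ∑ a ∈ σ, G (σ.erase a) a) =
      ∑ τ : Finset α, ∑ a, if a ∈ τ then 0 else G τ a := by
  rw [Finset.sum_comm (s := Finset.univ) (t := Finset.univ)
    (f := fun (τ : Finset α) (a : α) => if a ∈ τ then (0 : F2) else G τ a)]
  have : ∀ σ : Finset α, (∑ a ∈ σ, G (σ.erase a) a) =
      ∑ a, if a ∈ σ then G (σ.erase a) a else 0 := by
    intro σ
    rw [← Finset.sum_filter]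
    congr 1
    ext a; simp
  simp_rw [this]
  rw [Finset.sum_comm]
  exact Finset.sum_congr rfl fun a _ => sum_mem_eq a (fun τ => G τ a)

/-- adjointness of the boundary -/
lemma sum_bd (z g : Finset α → F2) :
    (∑ τ, bd z τ * g τ) = ∑ σ, z σ * ∑ a ∈ σ, g (σ.erase a) := by
  have h := sum_reindex (fun τ a => z (insert a τ) * g τ)
  simp only [bd, Finset.sum_mul, Finset.mul_sum, ite_mul, zero_mul]
  rw [← h]
  refine Finset.sum_congr rfl fun σ _ => Finset.sum_congr rfl fun a ha => ?_
  rw [Finset.insert_erase ha]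

/-- acyclic carriers -/
lemma carrier {β : Type*} [Fintype β] [DecidableEq β] (N : Finset β → Prop)
    (hN : ∀ γ δ, δ ⊆ γ → N γ → N δ) (K : Finset β → Finset α → Prop)
    (hK : ∀ γ δ, N γ → δ ⊆ γ → ∀ σ, K δ σ → K γ σ) (hK0 : K ∅ ∅)
    (hac : ∀ γ, N γ → γ.Nonempty → Ac (K γ) γ.card) :
    ∃ φ : Finset β → Finset α → F2, φ ∅ = (fun σ => if σ = ∅ then 1 else 0) ∧
      ∀ γ, N γ → (∀ σ, φ γ σ ≠ 0 → K γ σ ∧ σ.card ≤ γ.card) ∧
        bd (φ γ) = ∑ b ∈ γ, φ (γ.erase b) := by
  have key : ∀ n : ℕ, ∃ φ : Finset β → Finset α → F2,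
      φ ∅ = (fun σ => if σ = ∅ then 1 else 0) ∧
      ∀ γ, N γ → γ.card ≤ n → (∀ σ, φ γ σ ≠ 0 → K γ σ ∧ σ.card ≤ γ.card) ∧
        bd (φ γ) = ∑ b ∈ γ, φ (γ.erase b) := by
    intro n
    induction n with
    | zero =>
      refine ⟨fun _ σ => if σ = ∅ then 1 else 0, rfl, ?_⟩
      intro γ _ hγ
      have : γ = ∅ := Finset.card_eq_zero.1 (by omega)
      subst this
      refine ⟨?_, ?_⟩
      · intro σ hσ
        have : σ = ∅ := by
          by_contra h; simp [h] at hσ
        subst this
        exact ⟨hK0, le_rfl⟩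
      · funext σ
        simp [bd]
    | succ n ih =>
      obtain ⟨φ, h0, hφ⟩ := ih
      have step : ∀ γ, N γ → γ.card = n + 1 → ∃ w : Finset α → F2,
          (∀ σ, w σ ≠ 0 → K γ σ ∧ σ.card ≤ γ.card) ∧ bd w = ∑ b ∈ γ, φ (γ.erase b) := by
        intro γ hγ hc
        have hne : γ.Nonempty := Finset.card_pos.1 (by omega)
        have her : ∀ b ∈ γ, N (γ.erase b) ∧ (γ.erase b).card = n := by
          intro b hb
          refine ⟨hN _ _ (Finset.erase_subset _ _) hγ, ?_⟩
          rw [Finset.card_erase_of_mem hb]; omega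
        refine hac γ hγ hne _ le_rfl _ ?_ ?_
        · intro σ hσ
          rw [Finset.sum_apply] at hσ
          obtain ⟨b, hb, hb'⟩ := Finset.exists_ne_zero_of_sum_ne_zero hσ
          obtain ⟨h1, h2⟩ := her b hb
          obtain ⟨h3, h4⟩ := (hφ _ h1 h2.le).1 σ hb'
          exact ⟨hK _ _ hγ (Finset.erase_subset _ _) _ h3, by omega⟩
        · rw [bd_sum]
          rw [Finset.sum_congr rfl (fun b hb => (hφ _ (her b hb).1 (her b hb).2.le).2)]
          funext σ
          simp only [Finset.sum_apply, Pi.zero_apply]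
          have := sum_sym (fun b c : β => if b ∈ γ ∧ c ∈ γ ∧ b ≠ c then
            φ ((γ.erase b).erase c) σ else 0) (by
              intro b c
              rw [Finset.erase_right_comm]
              congr 1
              apply propext
              constructor <;> rintro ⟨h1, h2, h3⟩ <;> exact ⟨h2, h1, h3.symm⟩) (by simp)
          refine Eq.trans ?_ this
          symm
          rw [← Finset.sum_subset (Finset.subset_univ γ) (by
            intro b _ hb; simp [hb])]
          refine Finset.sum_congr rfl fun b hb => ?_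
          rw [← Finset.sum_filter]
          congr 1
          ext c
          simp only [Finset.mem_filter, Finset.mem_univ, true_and, Finset.mem_erase, hb]
          constructor
          · rintro ⟨h1, h2⟩; exact ⟨h2.symm, h1⟩
          · rintro ⟨h1, h2⟩; exact ⟨h2, h1.symm⟩
      classical
      choose! w hw using step
      refine ⟨fun γ => if γ.card = n + 1 then w γ else φ γ, by simp [h0], ?_⟩
      intro γ hγ hc
      have hsum : (∑ b ∈ γ, if (γ.erase b).card = n + 1 then w (γ.erase b) else φ (γ.erase b)) =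
          ∑ b ∈ γ, φ (γ.erase b) := by
        refine Finset.sum_congr rfl fun b hb => ?_
        rw [if_neg]
        rw [Finset.card_erase_of_mem hb]
        have := Finset.card_pos.2 ⟨b, hb⟩
        omega
      beta_reduce
      rw [hsum]
      by_cases h : γ.card = n + 1
      · rw [if_pos h]; exact hw γ hγ h
      · rw [if_neg h]; exact hφ γ hγ (by omega)
  obtain ⟨φ, h0, hφ⟩ := key (Fintype.card β)
  exact ⟨φ, h0, fun γ hγ => hφ γ hγ (Finset.card_le_univ γ)⟩

open Classical in
/-- a chain self-map of a cone has total trace zero mod 2 -/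
lemma trace_zero (N : Finset α → Prop) (hN : ∀ γ δ, δ ⊆ γ → N γ → N δ) (p : α)
    (hp : ∀ γ, N γ → N (insert p γ)) (f : Finset α → Finset α → F2)
    (hs : ∀ γ, N γ → ∀ δ, f γ δ ≠ 0 → N δ)
    (hf : ∀ γ, N γ → bd (f γ) = ∑ b ∈ γ, f (γ.erase b)) :
    (∑ γ, if N γ then f γ γ else 0) = 0 := by
  have h1 : (∑ γ, if N γ then f γ γ else 0) =
      ∑ γ, if p ∈ γ then 0 else if N γ then (f γ γ + f (insert p γ) (insert p γ)) else 0 := by
    have h2 := sum_mem_eq p (fun γ => if N γ then f (insert p γ) (insert p γ) else 0)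
    have h3 : (∑ γ, if p ∈ γ then (0 : F2) else
        if N γ then (f γ γ + f (insert p γ) (insert p γ)) else 0) =
        (∑ γ, if p ∈ γ then (0 : F2) else if N γ then f γ γ else 0) +
        ∑ γ, if p ∈ γ then (0 : F2) else if N γ then f (insert p γ) (insert p γ) else 0 := by
      rw [← Finset.sum_add_distrib]
      refine Finset.sum_congr rfl fun γ _ => ?_
      split_ifs <;> simp
    rw [h3, ← h2, ← Finset.sum_add_distrib]
    refine Finset.sum_congr rfl fun γ _ => ?_
    by_cases h : p ∈ γ
    · simp only [h, if_true, Finset.insert_erase h, zero_add]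
      have : N (γ.erase p) ↔ N γ := by
        refine ⟨fun h' => ?_, hN _ _ (Finset.erase_subset _ _)⟩
        have := hp _ h'
        rwa [Finset.insert_erase h] at this
      simp [this]
    · simp [h]
  have h4 := sum_reindex (fun τ b => if N (insert b τ) ∧ p ∉ τ ∧ b ≠ p then
    f (insert p τ) (insert b τ) else 0)
  rw [h1]
  refine Eq.trans ?_ (add_self2 (∑ τ : Finset α, ∑ b, if b ∈ τ then (0 : F2) else
    if N (insert b τ) ∧ p ∉ τ ∧ b ≠ p then f (insert p τ) (insert b τ) else 0))
  conv_rhs => congr; rw [← h4]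
  rw [← Finset.sum_add_distrib]
  refine Finset.sum_congr rfl fun γ _ => ?_
  by_cases h : p ∈ γ
  · simp only [h, if_true, not_true_eq_false, false_and, and_false, if_false, ite_self,
      Finset.sum_const_zero, add_zero]
    symm
    refine Finset.sum_eq_zero fun b _ => ?_
    rw [if_neg]
    rintro ⟨_, h5, h6⟩
    exact h5 (Finset.mem_erase.2 ⟨fun h' => h6 h'.symm, h⟩)
  · simp only [h, if_false]
    by_cases hγ : N γ
    · simp only [hγ, if_true]
      have h5 := congrFun (hf _ (hp _ hγ)) γ
      simp only [bd, Finset.sum_apply] at h5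
      rw [Finset.sum_insert h, Finset.erase_insert h,
        ← Finset.add_sum_erase Finset.univ _ (Finset.mem_univ p)] at h5
      simp only [h, if_false] at h5
      have h6 : (∑ b ∈ γ, if N (insert b (γ.erase b)) ∧ p ∉ γ.erase b ∧ b ≠ p then
          f (insert p (γ.erase b)) (insert b (γ.erase b)) else 0) =
          ∑ b ∈ γ, f ((insert p γ).erase b) γ := by
        refine Finset.sum_congr rfl fun b hb => ?_
        have hbp : b ≠ p := fun h' => h (h' ▸ hb)
        rw [Finset.insert_erase hb, if_pos ⟨hγ, fun h' => h (Finset.mem_of_mem_erase h'), hbp⟩,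
          Finset.erase_insert_of_ne hbp.symm]
      have h7 : (∑ b, if b ∈ γ then (0 : F2) else
          if N (insert b γ) ∧ (¬ False) ∧ b ≠ p then f (insert p γ) (insert b γ) else 0) =
          ∑ b ∈ Finset.univ.erase p, if b ∈ γ then 0 else f (insert p γ) (insert b γ) := by
        rw [← Finset.add_sum_erase Finset.univ _ (Finset.mem_univ p)]
        simp only [ne_eq, not_true_eq_false, and_false, if_false, ite_self, zero_add]
        refine Finset.sum_congr rfl fun b hb => ?_
        have hbp : b ≠ p := (Finset.mem_erase.1 hb).1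
        by_cases hb' : b ∈ γ
        · simp [hb']
        · simp only [hb', if_false]
          by_cases h8 : N (insert b γ)
          · rw [if_pos ⟨h8, not_false, hbp⟩]
          · rw [if_neg (fun h' => h8 h'.1)]
            by_contra h9
            exact h8 (hs _ (hp _ hγ) _ (fun h' => h9 h'.symm))
      rw [h6, h7]
      have h9 := add_self2 (f (insert p γ) (insert p γ))
      have h10 := add_self2 (∑ b ∈ γ, f ((insert p γ).erase b) γ)
      linear_combination h9 - h10 - h5
    · simp only [hγ, if_false]
      symm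
      rw [Finset.sum_eq_zero, Finset.sum_eq_zero, add_zero]
      · intro b _
        split_ifs with h5 h6
        · rfl
        · exact absurd (hN _ _ (Finset.subset_insert _ _) h6.1) hγ
        · rfl
      · intro b hb
        rw [Finset.insert_erase hb, if_neg (fun h' => hγ h'.1)]

end Pool.Agent.H786Z.TH
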