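import Pool.Agent.H786Z.TH.AB

/-!
Connectivity of the complex of arc sets whose deletion leaves a digraph strongly connected.
-/

open Finset

namespace Pool.Agent.H786Z.TH

variable {V A : Type*} [Fintype A] [DecidableEq A] (tl hd : A → V)

/-- reachability along arcs of `S` -/
def Rch (S : Finset A) : V → V → Prop :=
  Relation.ReflTransGen (fun x y => ∃ a ∈ S, tl a = x ∧ hd a = y)

def Str (S : Finset A) : Prop := ∀ u v, Rch tl hd S u v

/-- arcs of `P` are kept, arcs of `Dl` are deleted; faces are further deletable sets -/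
def Cx (P Dl F : Finset A) : Prop := Disjoint F P ∧ Disjoint F Dl ∧ Str tl hd (Dl ∪ F)ᶜ

variable {tl hd}

lemma rtg_mono {β : Type*} {r p : β → β → Prop} (h : ∀ a b, r a b → p a b) {a b : β}
    (hab : Relation.ReflTransGen r a b) : Relation.ReflTransGen p a b := by
  induction hab with
  | refl => exact Relation.ReflTransGen.refl
  | tail _ h2 ih => exact ih.tail (h _ _ h2)

omit [Fintype A] [DecidableEq A] in
lemma Rch.mono {S T : Finset A} (h : S ⊆ T) {u v : V} (huv : Rch tl hd S u v) :
    Rch tl hd T u v :=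
  rtg_mono (fun _ _ ⟨a, ha, h'⟩ => ⟨a, h ha, h'⟩) huv

omit [Fintype A] [DecidableEq A] in
lemma Rch.trans {S : Finset A} {u v w : V} (h1 : Rch tl hd S u v) (h2 : Rch tl hd S v w) :
    Rch tl hd S u w := Relation.ReflTransGen.trans h1 h2

omit [Fintype A] [DecidableEq A] in
lemma Rch.arc {S : Finset A} {a : A} (ha : a ∈ S) : Rch tl hd S (tl a) (hd a) :=
  Relation.ReflTransGen.single ⟨a, ha, rfl, rfl⟩

omit [Fintype A] [DecidableEq A] in
lemma Rch.swap {S : Finset A} {u v : V} (h : Rch tl hd S u v) : Rch hd tl S v u := by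
  unfold Rch at *
  induction h with
  | refl => exact Relation.ReflTransGen.refl
  | tail _ h2 ih =>
    obtain ⟨a, ha, h3, h4⟩ := h2
    exact Relation.ReflTransGen.head ⟨a, ha, h4, h3⟩ ih

lemma cx_down (P Dl : Finset A) : ∀ σ τ, τ ⊆ σ → Cx tl hd P Dl σ → Cx tl hd P Dl τ := by
  intro σ τ h hσ
  refine ⟨hσ.1.mono_left h, hσ.2.1.mono_left h, fun u v => (hσ.2.2 u v).mono ?_⟩
  exact Finset.compl_subset_compl.2 (Finset.union_subset_union le_rfl h)

lemma query {P Dl : Finset A} {a : A} (hP : a ∉ P) (hD : a ∉ Dl) (t : ℕ)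
    (h1 : Ac (Cx tl hd (insert a P) Dl) t)
    (h2 : ∀ t', t = t' + 1 → Ac (Cx tl hd P (insert a Dl)) t') : Ac (Cx tl hd P Dl) t := by
  rcases t with _ | t
  · exact ac_zero _
  refine ac_link _ (cx_down P Dl) a t (ac_congr ?_ h1) (ac_congr ?_ (h2 t rfl))
  · intro σ
    unfold Cx
    rw [Finset.disjoint_insert_right]
    tauto
  · intro σ
    unfold Cx
    rw [Finset.disjoint_insert_right, Finset.disjoint_insert_left, Finset.disjoint_insert_left,
      Finset.insert_union, Finset.union_insert]
    tauto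

lemma meas_left {P Dl : Finset A} {a : A} (hP : a ∉ P) (hD : a ∉ Dl) :
    (insert a P ∪ Dl)ᶜ.card < (P ∪ Dl)ᶜ.card := by
  apply Finset.card_lt_card
  rw [Finset.compl_ssubset_compl, Finset.insert_union]
  exact Finset.ssubset_insert (by simp [hP, hD])

lemma meas_right {P Dl : Finset A} {a : A} (hP : a ∉ P) (hD : a ∉ Dl) :
    (P ∪ insert a Dl)ᶜ.card < (P ∪ Dl)ᶜ.card := by
  apply Finset.card_lt_card
  rw [Finset.compl_ssubset_compl, Finset.union_insert]
  exact Finset.ssubset_insert (by simp [hP, hD])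

omit [Fintype A] in
lemma card_insert_inter (a : A) (P En : Finset A) :
    (insert a P ∩ En).card ≤ (P ∩ En).card + if a ∈ En then 1 else 0 := by
  by_cases h : a ∈ En
  · rw [Finset.insert_inter_of_mem h, if_pos h]; exact Finset.card_insert_le _ _
  · rw [Finset.insert_inter_of_notMem h, if_neg h]; simp

lemma filter_lt {X : Finset V} {p q : V → Prop} [DecidablePred p] [DecidablePred q]
    (h : ∀ x, q x → p x) {x : V} (hx : x ∈ X) (hp : p x) (hq : ¬ q x) :
    (X.filter q).card + 1 ≤ (X.filter p).card := by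
  apply Finset.card_lt_card
  refine Finset.ssubset_iff_subset_ne.2 ⟨Finset.monotone_filter_right _ (fun x _ => h x), ?_⟩
  intro h'
  have : x ∈ X.filter p := Finset.mem_filter.2 ⟨hx, hp⟩
  rw [← h'] at this
  exact hq (Finset.mem_filter.1 this).2

lemma filter_le {X : Finset V} {p q : V → Prop} [DecidablePred p] [DecidablePred q]
    (h : ∀ x, q x → p x) : (X.filter q).card ≤ (X.filter p).card :=
  Finset.card_le_card (Finset.monotone_filter_right _ (fun x _ => h x))

open Classical in
/-- second phase: everything already reaches the root -/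
lemma phase2 (Φ En : Finset A) (X : Finset V) (r : V)
    (hEn : ∀ a ∈ En, ∃ x ∈ X, Rch tl hd Φ (hd a) x ∧ Rch tl hd Φ x (hd a)) :
    ∀ n : ℕ, ∀ (P Dl : Finset A) (t : ℕ), (P ∪ Dl)ᶜ.card = n → Φ ⊆ P → Disjoint P Dl →
      (∀ v, Rch tl hd P v r) →
      t + Dl.card + (P ∩ En).card + (X.filter (fun x => ¬ Rch tl hd P r x)).card ≤ En.card →
      Ac (Cx tl hd P Dl) t := by
  intro n
  induction n using Nat.strong_induction_on with
  | _ n ih =>
  intro P Dl t hn hΦ hdis hin hb
  by_cases hall : ∀ v, Rch tl hd P r v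
  · by_cases hU : ∃ p, p ∉ P ∧ p ∉ Dl
    · obtain ⟨p, hp1, hp2⟩ := hU
      refine ac_cone _ p ?_ t
      intro σ hσ
      refine ⟨Finset.disjoint_insert_left.2 ⟨hp1, hσ.1⟩,
        Finset.disjoint_insert_left.2 ⟨hp2, hσ.2.1⟩, fun u v => ?_⟩
      refine ((hin u).trans (hall v)).mono ?_
      intro a ha
      simp only [Finset.mem_compl, Finset.mem_union, Finset.mem_insert, not_or]
      exact ⟨fun h => Finset.disjoint_left.1 hdis ha h, fun h => hp1 (h ▸ ha),
        fun h => Finset.disjoint_left.1 hσ.1 h ha⟩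
    · push Not at hU
      have h1 : En ⊆ (P ∩ En) ∪ Dl := by
        intro a ha
        by_cases h : a ∈ P
        · simp [h, ha]
        · simp [hU a h]
      have h2 := (Finset.card_le_card h1).trans (Finset.card_union_le _ _)
      have : t = 0 := by omega
      rw [this]; exact ac_zero _
  · push Not at hall
    obtain ⟨v, hv⟩ := hall
    by_cases hex : ∃ a, a ∉ P ∧ a ∉ Dl ∧ Rch tl hd P r (tl a) ∧ ¬ Rch tl hd P r (hd a)
    · obtain ⟨a, haP, haD, h1, h2⟩ := hex
      have hsub : P ⊆ insert a P := Finset.subset_insert _ _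
      refine query haP haD t ?_ ?_
      · refine ih _ (hn ▸ meas_left haP haD) _ _ t rfl (hΦ.trans hsub)
          (Finset.disjoint_insert_left.2 ⟨haD, hdis⟩) (fun w => (hin w).mono hsub) ?_
        have h3 := card_insert_inter a P En
        have hm : ∀ x, ¬ Rch tl hd (insert a P) r x → ¬ Rch tl hd P r x :=
          fun x hx h => hx (h.mono hsub)
        by_cases haE : a ∈ En
        · obtain ⟨x, hx, h4, h5⟩ := hEn a haE
          have h6 := filter_lt hm hx (fun h => h2 (h.trans (h5.mono hΦ))) (not_not.2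
            (((h1.mono hsub).trans (Rch.arc (Finset.mem_insert_self a P))).trans
              (h4.mono (hΦ.trans hsub))))
          rw [if_pos haE] at h3
          omega
        · have h6 := filter_le (X := X) hm
          rw [if_neg haE] at h3
          omega
      · intro t' ht'
        refine ih _ (hn ▸ meas_right haP haD) _ _ t' rfl hΦ
          (Finset.disjoint_insert_right.2 ⟨haP, hdis⟩) hin ?_
        rw [Finset.card_insert_of_notMem haD]
        omega
    · push Not at hex
      refine ac_void _ ?_ t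
      intro σ hσ
      apply hv
      have := hσ.2.2 r v
      unfold Rch at this
      clear hv
      induction this with
      | refl => exact Relation.ReflTransGen.refl
      | tail _ h2 ih2 =>
        obtain ⟨a, ha, h3, h4⟩ := h2
        rw [← h4]
        rw [← h3] at ih2
        by_cases haP : a ∈ P
        · exact ih2.trans (Rch.arc haP)
        · refine hex a haP ?_ ih2
          intro h
          simp [h] at ha

/-- walks avoiding `Dl` all of whose later vertices avoid `R` -/
def Wk (tl hd : A → V) (Dl : Finset A) (R : V → Prop) : V → V → Prop :=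
  Relation.ReflTransGen (fun u v => ∃ a, a ∉ Dl ∧ tl a = u ∧ hd a = v ∧ ¬ R v)

omit [Fintype A] [DecidableEq A] in
lemma first_entry {Dl : Finset A} {R R' : V → Prop} {y u : V} (hy : ¬ R' y)
    (h : Wk tl hd Dl R y u) :
    (Wk tl hd Dl R' y u ∧ ¬ R' u) ∨
      ∃ e, e ∉ Dl ∧ R' (hd e) ∧ ¬ R (hd e) ∧ ¬ R' (tl e) ∧ Wk tl hd Dl R' y (tl e) := by
  unfold Wk at *
  induction h with
  | refl => exact Or.inl ⟨Relation.ReflTransGen.refl, hy⟩
  | @tail b c _ h2 ih =>
    rcases ih with ⟨h3, h4⟩ | ih
    · obtain ⟨a, ha, h5, h6, h7⟩ := h2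
      by_cases hc : R' c
      · right
        refine ⟨a, ha, h6 ▸ hc, h6 ▸ h7, h5 ▸ h4, h5 ▸ h3⟩
      · left
        exact ⟨h3.tail ⟨a, ha, h5, h6, hc⟩, hc⟩
    · exact Or.inr ih

open Classical in
/-- first phase: make every vertex reach the root, one sink at a time -/
lemma phase1 (Φ En : Finset A) (X Y : Finset V) (r : V)
    (hEn : ∀ a ∈ En, ∃ x ∈ X, Rch tl hd Φ (hd a) x ∧ Rch tl hd Φ x (hd a))
    (hY : ∀ v, ∃ y ∈ Y, Rch tl hd Φ v y) :
    ∀ n : ℕ, ∀ (P Dl : Finset A) (t : ℕ), (P ∪ Dl)ᶜ.card = n → Φ ⊆ P → Disjoint P Dl →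
      ((∀ y ∈ Y, ∀ e, ¬ Rch tl hd P y r → e ∉ Dl → Rch tl hd P (hd e) r →
        ¬ Rch tl hd P (tl e) r → Wk tl hd Dl (fun v => Rch tl hd P v r) y (tl e) →
        2 * t + Dl.card + (P ∩ En).card + (X.filter (fun x => ¬ Rch tl hd P x r)).card +
          (if e ∈ En then 1 else 0) + (Y.filter (fun x => ¬ Rch tl hd P x r)).card + X.card ≤
            En.card + 1 → Ac (Cx tl hd P Dl) t) ∧
      (2 * t + Dl.card + (P ∩ En).card + (X.filter (fun x => ¬ Rch tl hd P x r)).card +
          (Y.filter (fun x => ¬ Rch tl hd P x r)).card + X.card ≤ En.card →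
        Ac (Cx tl hd P Dl) t)) := by
  intro n
  induction n using Nat.strong_induction_on with
  | _ n ih =>
  intro P Dl t hn hΦ hdis
  have hM : ∀ y ∈ Y, ∀ e, ¬ Rch tl hd P y r → e ∉ Dl → Rch tl hd P (hd e) r →
        ¬ Rch tl hd P (tl e) r → Wk tl hd Dl (fun v => Rch tl hd P v r) y (tl e) →
        2 * t + Dl.card + (P ∩ En).card + (X.filter (fun x => ¬ Rch tl hd P x r)).card +
          (if e ∈ En then 1 else 0) + (Y.filter (fun x => ¬ Rch tl hd P x r)).card + X.card ≤
            En.card + 1 → Ac (Cx tl hd P Dl) t := by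
    intro y hy e h1 heD h2 h3 h4 hb
    have heP : e ∉ P := fun h => h3 ((Rch.arc h).trans h2)
    have hsub : P ⊆ insert e P := Finset.subset_insert _ _
    refine query heP heD t ?_ ?_
    · obtain ⟨ihM, ihS⟩ := ih _ (hn ▸ meas_left heP heD) _ _ t rfl (hΦ.trans hsub)
        (Finset.disjoint_insert_left.2 ⟨heD, hdis⟩)
      have h5 := card_insert_inter e P En
      have hm : ∀ x, ¬ Rch tl hd (insert e P) x r → ¬ Rch tl hd P x r :=
        fun x hx h => hx (h.mono hsub)
      have hX := filter_le (X := X) hm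
      have hY' := filter_le (X := Y) hm
      by_cases hy' : Rch tl hd (insert e P) y r
      · apply ihS
        have h6 := filter_lt hm hy h1 (not_not.2 hy')
        omega
      · rcases first_entry (R' := fun v => Rch tl hd (insert e P) v r) hy' h4 with
          ⟨_, h6⟩ | ⟨e', h6, h7, h8, h9, h10⟩
        · exact absurd ((Rch.arc (Finset.mem_insert_self e P)).trans (h2.mono hsub)) h6
        · refine ihM y hy e' hy' h6 h7 h9 h10 ?_
          by_cases he' : e' ∈ En
          · obtain ⟨x, hx, h11, h12⟩ := hEn e' he'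
            have h13 := filter_lt hm hx (fun h => h8 ((h11.mono hΦ).trans h))
              (not_not.2 ((h12.mono (hΦ.trans hsub)).trans h7))
            rw [if_pos he']
            omega
          · rw [if_neg he']
            omega
    · intro t' ht'
      obtain ⟨_, ihS⟩ := ih _ (hn ▸ meas_right heP heD) _ _ t' rfl hΦ
        (Finset.disjoint_insert_right.2 ⟨heP, hdis⟩)
      apply ihS
      rw [Finset.card_insert_of_notMem heD]
      omega
  refine ⟨hM, fun hb => ?_⟩
  by_cases hall : ∀ y ∈ Y, Rch tl hd P y r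
  · refine phase2 Φ En X r hEn _ P Dl t rfl hΦ hdis ?_ ?_
    · intro v
      obtain ⟨y, hy, h⟩ := hY v
      exact (h.mono hΦ).trans (hall y hy)
    · have := Finset.card_filter_le X (fun x => ¬ Rch tl hd P r x)
      omega
  · push Not at hall
    obtain ⟨y, hy, h1⟩ := hall
    by_cases hv : ∃ σ, Cx tl hd P Dl σ
    · obtain ⟨σ, hσ⟩ := hv
      have h2 : Wk tl hd Dl (fun _ => False) y r := by
        refine rtg_mono ?_ (hσ.2.2 y r)
        rintro u v ⟨a, ha, h3, h4⟩
        refine ⟨a, ?_, h3, h4, not_false⟩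
        intro h
        simp [h] at ha
      rcases first_entry (R' := fun v => Rch tl hd P v r) h1 h2 with
        ⟨_, h6⟩ | ⟨e, h6, h7, _, h9, h10⟩
      · exact absurd Relation.ReflTransGen.refl h6
      · refine hM y hy e h1 h6 h7 h9 h10 ?_
        split_ifs <;> omega
    · push Not at hv
      exact ac_void _ hv t

end Pool.Agent.H786Z.TH
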