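import Pool.Agent.H786Z.TH.Game

/-!
A 5-arc-strong digraph has a weakly connected spanning arc set whose deletion leaves it strong.
-/

open Finset

namespace Pool.Agent.H786Z.TH

variable {V A : Type*} [Fintype V] [Fintype A] [DecidableEq A] {tl hd : A → V}

omit [Fintype A] [DecidableEq A] in
lemma exists_dom (tl hd : A → V) (Φ : Finset A) : ∃ X : Finset V,
    (∀ v, ∃ x ∈ X, Rch tl hd Φ x v) ∧ ∀ x ∈ X, ∀ x' ∈ X, Rch tl hd Φ x x' → x = x' := by
  classical
  obtain ⟨X, hX, hm⟩ := Finset.exists_min_image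
    ((Finset.univ : Finset (Finset V)).filter (fun X => ∀ v, ∃ x ∈ X, Rch tl hd Φ x v))
    Finset.card ⟨Finset.univ, by
      simp only [Finset.mem_filter, Finset.mem_univ, true_and]
      exact fun v => ⟨v, Relation.ReflTransGen.refl⟩⟩
  have hX' := (Finset.mem_filter.1 hX).2
  refine ⟨X, hX', ?_⟩
  intro x hx x' hx' h
  by_contra hne
  have := hm (X.erase x') (by
    simp only [Finset.mem_filter, Finset.mem_univ, true_and]
    intro v
    obtain ⟨y, hy, h'⟩ := hX' v
    by_cases hy' : y = x'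
    · exact ⟨x, Finset.mem_erase.2 ⟨hne, hx⟩, h.trans (hy' ▸ h')⟩
    · exact ⟨y, Finset.mem_erase.2 ⟨hy', hy⟩, h'⟩)
  rw [Finset.card_erase_of_mem hx'] at this
  have := Finset.card_pos.2 ⟨x, hx⟩
  omega

omit [Fintype V] in
open Classical in
lemma indeg (k : ℕ) (hk : ∀ F : Finset A, F.card < k → Str tl hd Fᶜ) (L : V → Prop)
    {x y : V} (hx : L x) (hy : ¬ L y) :
    k ≤ (Finset.univ.filter (fun a => L (hd a) ∧ ¬ L (tl a))).card := by
  by_contra h
  have h1 := hk _ (not_le.1 h) y x
  have : ∀ z, Rch tl hd (Finset.univ.filter (fun a => L (hd a) ∧ ¬ L (tl a)))ᶜ y z → ¬ L z := by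
    intro z hz
    unfold Rch at hz
    induction hz with
    | refl => exact hy
    | tail _ h2 ih =>
      obtain ⟨a, ha, h3, h4⟩ := h2
      intro hc
      simp only [Finset.mem_compl, Finset.mem_filter, Finset.mem_univ, true_and, not_and,
        not_not] at ha
      exact ih (h3 ▸ ha (h4 ▸ hc))
  exact this x h1 hx

omit [Fintype V] in
lemma ac_main (hk : ∀ F : Finset A, F.card < 5 → Str tl hd Fᶜ) (Φ : Finset A) (X Y : Finset V)
    (hX : ∀ v, ∃ x ∈ X, Rch tl hd Φ x v) (hX' : ∀ x ∈ X, ∀ x' ∈ X, Rch tl hd Φ x x' → x = x')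
    (hY : ∀ v, ∃ y ∈ Y, Rch tl hd Φ v y) (hXY : Y.card ≤ X.card)
    (hns : ∀ x, ∃ y, ¬ Rch tl hd Φ y x) (r : V) (t : ℕ) (ht : t ≤ X.card) :
    Ac (Cx tl hd Φ ∅) t := by
  classical
  have htop : ∀ x ∈ X, ∀ y, Rch tl hd Φ y x → Rch tl hd Φ x y := by
    intro x hx y h
    obtain ⟨x', hx', h'⟩ := hX y
    rw [← hX' x' hx' x hx (h'.trans h)]
    exact h'
  let E : V → Finset A := fun x =>
    Finset.univ.filter (fun a => Rch tl hd Φ (hd a) x ∧ ¬ Rch tl hd Φ (tl a) x)
  have hE : ∀ x, 5 ≤ (E x).card := by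
    intro x
    obtain ⟨y, hy⟩ := hns x
    convert indeg 5 hk (fun v => Rch tl hd Φ v x) (x := x) Relation.ReflTransGen.refl hy
  have hcard : 5 * X.card ≤ (X.biUnion E).card := by
    rw [Finset.card_biUnion]
    · calc 5 * X.card = ∑ _x ∈ X, 5 := by simp [mul_comm]
        _ ≤ _ := Finset.sum_le_sum fun x _ => hE x
    · intro x hx x' hx' hne
      refine Finset.disjoint_left.2 fun a h1 h2 => hne ?_
      have h3 := (Finset.mem_filter.1 h1).2.1
      have h4 := (Finset.mem_filter.1 h2).2.1
      exact hX' x hx x' hx' ((htop x hx _ h3).trans h4)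
  refine (phase1 Φ (X.biUnion E) X Y r ?_ hY _ Φ ∅ t rfl le_rfl (by simp)).2 ?_
  · intro a ha
    obtain ⟨x, hx, h⟩ := Finset.mem_biUnion.1 ha
    have h3 := (Finset.mem_filter.1 h).2.1
    exact ⟨x, hx, h3, htop x hx _ h3⟩
  · have h1 : Φ ∩ X.biUnion E = ∅ := by
      rw [Finset.eq_empty_iff_forall_notMem]
      intro a ha
      obtain ⟨h2, h3⟩ := Finset.mem_inter.1 ha
      obtain ⟨x, _, h⟩ := Finset.mem_biUnion.1 h3
      obtain ⟨h4, h5⟩ := (Finset.mem_filter.1 h).2
      exact h5 ((Rch.arc h2).trans h4)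
    rw [h1]
    have h2 := Finset.card_filter_le X (fun x => ¬ Rch tl hd Φ x r)
    have h3 := Finset.card_filter_le Y (fun x => ¬ Rch tl hd Φ x r)
    simp only [Finset.card_empty]
    omega

/-- weak connectivity along arcs of `S` -/
def W (tl hd : A → V) (S : Finset A) : Setoid V :=
  Relation.EqvGen.setoid (fun x y => ∃ a ∈ S, tl a = x ∧ hd a = y)

omit [Fintype V] [Fintype A] [DecidableEq A] in
lemma W_of_arcs {S T : Finset A} (h : ∀ a ∈ S, W tl hd T (tl a) (hd a)) {u v : V}
    (huv : W tl hd S u v) : W tl hd T u v := by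
  change Relation.EqvGen _ u v at huv
  induction huv with
  | rel x y hxy =>
    obtain ⟨a, ha, rfl, rfl⟩ := hxy
    exact h a ha
  | refl x => exact (W tl hd T).refl x
  | symm x y _ ih => exact (W tl hd T).symm ih
  | trans x y z _ _ ih1 ih2 => exact (W tl hd T).trans ih1 ih2

omit [Fintype V] [Fintype A] [DecidableEq A] in
lemma W_arc {S : Finset A} {a : A} (ha : a ∈ S) : W tl hd S (tl a) (hd a) :=
  Relation.EqvGen.rel _ _ ⟨a, ha, rfl, rfl⟩

omit [Fintype V] [Fintype A] [DecidableEq A] in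
lemma W_of_rch {S : Finset A} {u v : V} (h : Rch tl hd S u v) : W tl hd S u v := by
  unfold Rch at h
  induction h with
  | refl => exact (W tl hd S).refl _
  | tail _ h2 ih =>
    obtain ⟨a, ha, rfl, rfl⟩ := h2
    exact (W tl hd S).trans ih (W_arc ha)

omit [Fintype A] [DecidableEq A] in
lemma ncomp_le {S : Finset A} {X : Finset V} (hX : ∀ v, ∃ x ∈ X, W tl hd S x v) :
    Nat.card (Quotient (W tl hd S)) ≤ X.card := by
  have : Function.Surjective (fun x : X => (Quotient.mk (W tl hd S) x.1)) := by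
    intro q
    induction q using Quotient.inductionOn with
    | h v =>
      obtain ⟨x, hx, h⟩ := hX v
      exact ⟨⟨x, hx⟩, Quotient.sound h⟩
  have h := Nat.card_le_card_of_surjective _ this
  simpa using h

theorem split (hk : ∀ F : Finset A, F.card < 5 → Str tl hd Fᶜ) :
    ∃ F : Finset A, Str tl hd Fᶜ ∧ ∀ u v, W tl hd F u v := by
  classical
  let cl : Finset A → Finset A := fun S => Finset.univ.filter (fun a => W tl hd S (tl a) (hd a))
  have hclW : ∀ S u v, W tl hd (cl S) u v → W tl hd S u v := fun S u v h =>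
    W_of_arcs (fun a ha => (Finset.mem_filter.1 ha).2) h
  obtain ⟨F, hF, hρ⟩ := spanning_face (fun F : Finset A => Str tl hd Fᶜ)
    (fun σ τ h hσ u v => (hσ u v).mono (Finset.compl_subset_compl.2 h)) (hk ∅ (by simp))
    (fun Φ => ∀ a, W tl hd Φ (tl a) (hd a) → a ∈ Φ) cl
    (fun Φ => Nat.card (Quotient (W tl hd Φ)) - 1)
    (fun σ a ha => Finset.mem_filter.2 ⟨Finset.mem_univ _, hclW _ _ _ ha⟩)
    (fun σ a ha => Finset.mem_filter.2 ⟨Finset.mem_univ _, W_arc ha⟩)
    (fun σ Φ hΦ h a ha => hΦ a (W_of_arcs (fun b hb => W_arc (h hb))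
      (Finset.mem_filter.1 ha).2))
    (by
      intro Φ Ψ hΦ _ h
      obtain ⟨a, ha1, ha2⟩ := Finset.exists_of_ssubset h
      let g : Quotient (W tl hd Φ) → Quotient (W tl hd Ψ) :=
        Quotient.map id (fun u v huv => W_of_arcs (fun b hb => W_arc (h.1 hb)) huv)
      have hs : Function.Surjective g := by
        intro q
        induction q using Quotient.inductionOn with
        | h v => exact ⟨Quotient.mk _ v, rfl⟩
      have hi : ¬ Function.Injective g := by
        intro hi
        have : g (Quotient.mk _ (tl a)) = g (Quotient.mk _ (hd a)) := Quotient.sound (W_arc ha1)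
        exact ha2 (hΦ a (Quotient.exact (hi this)))
      have h1 : Nat.card (Quotient (W tl hd Ψ)) < Nat.card (Quotient (W tl hd Φ)) := by
        rw [Nat.card_eq_fintype_card, Nat.card_eq_fintype_card]
        exact Fintype.card_lt_of_surjective_not_injective g hs hi
      have h2 : 0 < Nat.card (Quotient (W tl hd Ψ)) := by
        have : Nonempty (Quotient (W tl hd Ψ)) := ⟨Quotient.mk _ (tl a)⟩
        exact Nat.card_pos
      omega)
    (by
      intro Φ _
      by_cases h0 : Nat.card (Quotient (W tl hd Φ)) - 1 = 0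
      · rw [h0]; exact ac_zero _
      have hns : ∀ x, ∃ y, ¬ W tl hd Φ x y := by
        intro x
        by_contra h
        push Not at h
        have := ncomp_le (S := Φ) (X := {x}) (fun v => ⟨x, by simp, h v⟩)
        rw [Finset.card_singleton] at this
        omega
      have hr : Nonempty V := by
        by_contra h
        have := ncomp_le (tl := tl) (hd := hd) (S := Φ) (X := ∅) (fun v => absurd ⟨v⟩ h)
        simp only [Finset.card_empty] at this
        omega
      obtain ⟨r⟩ := hr
      obtain ⟨X, hX, hX'⟩ := exists_dom tl hd Φ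
      obtain ⟨Y, hY, hY'⟩ := exists_dom hd tl Φ
      have hcX := ncomp_le (S := Φ) (X := X) (fun v => by
        obtain ⟨x, hx, h⟩ := hX v
        exact ⟨x, hx, W_of_rch h⟩)
      rcases le_total Y.card X.card with hXY | hXY
      · refine ac_congr ?_ (ac_main hk Φ X Y hX hX' (fun v => by
          obtain ⟨y, hy, h⟩ := hY v
          exact ⟨y, hy, h.swap⟩) hXY (fun x => by
          obtain ⟨y, hy⟩ := hns x
          exact ⟨y, fun h => hy ((W tl hd Φ).symm (W_of_rch h))⟩) r _ (by omega))
        intro σ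
        simp only [Cx, Finset.disjoint_empty_right, true_and, Finset.empty_union]
        exact and_comm
      · refine ac_congr ?_ (ac_main (tl := hd) (hd := tl) (fun F hF u v => (hk F hF v u).swap)
          Φ Y X hY hY' (fun v => by
          obtain ⟨y, hy, h⟩ := hX v
          exact ⟨y, hy, h.swap⟩) hXY (fun x => by
          obtain ⟨y, hy⟩ := hns x
          exact ⟨y, fun h => hy (W_of_rch h.swap)⟩) r _ (by omega))
        intro σ
        simp only [Cx, Finset.disjoint_empty_right, true_and, Finset.empty_union]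
        constructor
        · rintro ⟨h1, h2⟩; exact ⟨fun u v => (h2 v u).swap, h1⟩
        · rintro ⟨h1, h2⟩; exact ⟨h2, fun u v => (h1 v u).swap⟩)
  refine ⟨F, hF, fun u v => hclW _ _ _ ?_⟩
  have h1 : Nat.card (Quotient (W tl hd (cl F))) ≤ 1 := by omega
  have h2 : Subsingleton (Quotient (W tl hd (cl F))) := Finite.card_le_one_iff_subsingleton.1 h1
  exact Quotient.exact (Subsingleton.elim (Quotient.mk (W tl hd (cl F)) u) (Quotient.mk _ v))

end Pool.Agent.H786Z.TH
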